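import Pool.Agent.Lib_helper10.RX.Bound
import Pool.Agent.Lib_helper10.RY.Reay
import Pool.Agent.Lib_helper17.KAL.LpMain

/-!
The end of the proof: from the bound for the dimension of the intersection space of an extremal
state to Reay's conjecture and to Kalai's inequality for points in general position.
-/

set_option autoImplicit false
set_option linter.unusedSectionVars false

namespace Pool.Agent.RY

open scoped BigOperators
open Module Pool.Agent

/-- the partition lemma -/
theorem lpm : LPM := fun _ _ _ _ C P _ _ _ _ _ U x d W hW hU hd hcard hinj hgp hm =>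
  KAL.lp_main C P U x d W hW hU hd hcard hinj hgp hm

section fin

variable {d : ℕ}

/-- Reay's conjecture -/
theorem full_reay_of (hN : NUMS) {X : Finset (Fin d → ℝ)} (hX : GP X) {r k : ℕ} (hr : 1 ≤ r)
    (hk : k ≤ d) (hn : (r - 1) * (d + 1) + k + 1 ≤ X.card) : (k : ℤ) ≤ KL.dimT r X := by
  have hG := gen_of_GP hX
  have hcard : (X.map (lf d)).card = X.card := Finset.card_map _
  obtain ⟨F, hF, hF1, hF2⟩ := bound_of lpm hN (r := r) hG (by omega)
    (by rw [finrank_lift]; omega) (by rw [finrank_lift, hcard]; omega)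
  obtain ⟨z, hz⟩ := hF.pos
  have h1 := dimT_ge hr X F hF.sub hF.disj z hz (LL F) (fun j => iInf_le _ j) hF1
  rw [finrank_lift, hcard] at hF2
  have h2 : k + 1 ≤ finrank ℝ (LL F) := by
    rcases hF2 with h | h <;> omega
  have h3 : ((k + 1 : ℕ) : ℤ) ≤ (finrank ℝ (LL F) : ℤ) := by exact_mod_cast h2
  push_cast at h3
  linarith

/-- Kalai's inequality for points in general position -/
theorem full_kalai_of (hN : NUMS) {X : Finset (Fin d → ℝ)} (hX : GP X) :
    0 ≤ ∑ r ∈ Finset.Icc 1 X.card, KL.dimT r X := by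
  classical
  rcases Nat.eq_zero_or_pos X.card with h0 | hpos
  · rw [h0]; simp
  set n := X.card with hn
  obtain ⟨r0, m0, hr0, hm1, hm2, hnr⟩ : ∃ r0 m0, 1 ≤ r0 ∧ 1 ≤ m0 ∧ m0 ≤ d + 1 ∧
      n = (r0 - 1) * (d + 1) + m0 := by
    refine ⟨(n - 1) / (d + 1) + 1, (n - 1) % (d + 1) + 1, Nat.le_add_left 1 _,
      Nat.le_add_left 1 _, Nat.mod_lt _ (by omega), ?_⟩
    have := Nat.div_add_mod (n - 1) (d + 1)
    rw [Nat.add_sub_cancel, mul_comm]
    omega
  refine sum_of_lower (fun r => if r < r0 then d + 1 else if r = r0 then m0 else 0) r0 ?_ ?_ ?_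
  · intro r hr1 hr2
    by_cases h1 : r < r0
    · simp only [h1, if_true]
      have h2 : (r - 1) * (d + 1) + (d + 1) ≤ (r0 - 1) * (d + 1) := by
        calc (r - 1) * (d + 1) + (d + 1) = (r - 1 + 1) * (d + 1) := by ring
          _ ≤ (r0 - 1) * (d + 1) := Nat.mul_le_mul_right _ (by omega)
      have h3 := full_reay_of hN hX (r := r) (k := d) hr1 le_rfl (by omega)
      push_cast
      linarith
    · have h2 : r = r0 := by omega
      rw [h2]
      simp only [lt_irrefl, if_false, if_true]
      have h3 := full_reay_of hN hX (r := r0) (k := m0 - 1) hr0 (by omega) (by omega)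
      have h4 : ((m0 - 1 : ℕ) : ℤ) = (m0 : ℤ) - 1 := by
        rw [Nat.cast_sub hm1]; simp
      rw [h4] at h3
      linarith
  · intro r hr
    have h1 : r0 - 1 ≤ (r0 - 1) * (d + 1) := Nat.le_mul_of_pos_right _ (by omega)
    have h2 : ¬ r < r0 := by omega
    have h3 : ¬ r = r0 := by omega
    simp [h2, h3]
  · have e1 : ∑ r ∈ Finset.Icc 1 r0, (if r < r0 then d + 1 else if r = r0 then m0 else 0)
        = (r0 - 1) * (d + 1) + m0 := by
      obtain ⟨k, rfl⟩ : ∃ k, r0 = k + 1 := ⟨r0 - 1, by omega⟩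
      rw [Finset.sum_Icc_succ_top (by omega)]
      have e2 : ∑ r ∈ Finset.Icc 1 k, (if r < k + 1 then d + 1 else if r = k + 1 then m0 else 0)
          = ∑ _r ∈ Finset.Icc 1 k, (d + 1) := by
        refine Finset.sum_congr rfl fun r hr => ?_
        rw [if_pos (by have := (Finset.mem_Icc.mp hr).2; omega)]
      rw [e2, Finset.sum_const, Nat.card_Icc, smul_eq_mul]
      simp
    change n ≤ _
    rw [e1]
    omega

end fin

end Pool.Agent.RY
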